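import Pool.Agent.W886.LS.Stm0
import Pool.Agent.H620R2.Gauge.C

set_option autoImplicit false

namespace Pool.Agent.W828.LSCODS

open Pool.Agent.NPC Pool.Agent.H620R2.Gauge Pool.Agent.W886.LS

theorem task : Pool.Agent.W886.LS.S_CODS := by
  intro K Q hQ
  choose q hq using hQ
  let R : ℕ → Polynomial ℕ := fun e => (Polynomial.X + Polynomial.C (e + 1)) ^ K + q e
  have hR : ∀ e n, (R e).eval n = (n + (e + 1)) ^ K + (q e).eval n := by
    intro e n
    simp [R]
  refine ⟨R, ?_, ?_⟩
  · intro e n
    rw [hR, ← add_assoc n e 1]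
    exact Nat.le_add_right _ _
  · intro O
    refine ⟨CC.Phi R (fun e A x => Q e x A) O, ?_, ?_⟩
    · intro y hy
      exact CC.Phi_not R _ O y hy
    · intro e x
      refine CC.Phi_code R (fun e A x => Q e x A) O ?_ e x
      intro e A A' x h
      refine hq e x A A' fun y hy => h y ?_
      have h1 := CC.lt_length_code R e x
      rw [hR] at h1
      omega

end Pool.Agent.W828.LSCODS
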